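import Pool.Agent.H376R3.PD.TypeL2
import Pool.Agent.H376R3.PC.Zorn

/-!
# Assembly: strongly q-pseudocompact group topologies without convergent sequences
-/

set_option autoImplicit false

universe u

namespace Pool.Agent.H376R3.PD

open Cardinal Topology Filter Pool.Agent.H376R3.PC

/-- A homomorphism to a power of the circle together with a family of sequences with `q`-limits
hitting its image, without convergent sequences. -/
structure Piece2 (q : Ultrafilter ℕ) (G : Type u) [AddCommGroup G] where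
  X : Type u
  j : G →+ (X → T)
  Ξ : Type u
  S : Ξ → Option ℕ → G
  lim : ∀ ξ a, Tendsto (fun m => j (S ξ (some m)) a) q (𝓝 (j (S ξ none) a))
  hit : ∀ A : Set X, A.Countable → ∀ x : ℕ → G,
    ∃ ξ, ∀ m, ∀ a ∈ A, j (S ξ (some m)) a = j (x m) a
  nc : ∀ z : ℕ → G, (∀ a, Tendsto (fun n => j (z n) a) atTop (𝓝 0)) → ∀ᶠ n in atTop, j (z n) = 0

/-- the trivial piece -/
noncomputable def Piece2.triv (q : Ultrafilter ℕ) (G : Type u) [AddCommGroup G] :
    Piece2 q G where
  X := PEmpty
  j := 0
  Ξ := PUnit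
  S := fun _ _ => 0
  lim := fun _ a => a.elim
  hit := fun _ _ _ => ⟨PUnit.unit, fun _ a _ => a.elim⟩
  nc := fun _ _ => Filter.Eventually.of_forall fun _ => funext fun a => a.elim

/-- the conclusion -/
def Concl2 (q : Ultrafilter ℕ) (G : Type u) [AddCommGroup G] : Prop :=
  ∃ τ : TopologicalSpace G, @IsTopologicalAddGroup G τ _ ∧ @T2Space G τ ∧
      (∀ U : ℕ → Set G, (∀ n, IsOpen[τ] (U n)) → (∀ n, (U n).Nonempty) →
        ∃ (u : ℕ → G) (x : G), (∀ n, u n ∈ U n) ∧ Tendsto u q (@nhds G τ x)) ∧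
      ∀ (y : ℕ → G) (x : G), Function.Injective y → ¬ Tendsto y atTop (@nhds G τ x)

theorem assembly2 {q : Ultrafilter ℕ} {G : Type u} [AddCommGroup G] {I : Type} [Fintype I]
    (P : I → Piece2 q G)
    (hcross : ∀ i i', i ≠ i' → ∀ ξ o, (P i').j ((P i).S ξ o) = 0)
    (X0 : Type u) (j0 : G →+ (X0 → T)) (R : Set G) (hR : R.Finite)
    (hR2 : ∀ x, ∃ r ∈ R, j0 r = j0 x) (h0 : ∀ i ξ o, j0 ((P i).S ξ o) = 0)
    (hnc0 : ∀ z : ℕ → G, (∀ a, Tendsto (fun n => j0 (z n) a) atTop (𝓝 0)) →
      ∀ᶠ n in atTop, j0 (z n) = 0)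
    (hinj : ∀ x, (∀ i, (P i).j x = 0) → j0 x = 0 → x = 0) : Concl2 q G := by
  classical
  let Y : Type u := (Σ i, (P i).X) ⊕ X0
  let F : G →+ (Y → T) :=
    { toFun := fun x y => Sum.elim (fun a : Σ i, (P i).X => (P a.1).j x a.2) (fun a => j0 x a) y
      map_zero' := by
        funext y
        rcases y with ⟨i, a⟩ | a <;> simp
      map_add' := by
        intro x x'
        funext y
        rcases y with ⟨i, a⟩ | a <;> simp }
  have hF1 : ∀ x i a, F x (Sum.inl ⟨i, a⟩) = (P i).j x a := fun _ _ _ => rfl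
  have hF2 : ∀ x a, F x (Sum.inr a) = j0 x a := fun _ _ => rfl
  have hFi : Function.Injective F := by
    rw [injective_iff_map_eq_zero]
    intro x hx
    apply hinj x
    · intro i
      funext a
      rw [← hF1 x i a, hx]; rfl
    · funext a
      rw [← hF2 x a, hx]; rfl
  let τ : TopologicalSpace G := TopologicalSpace.induced F inferInstance
  have hind : IsInducing F := ⟨rfl⟩
  have hemb : IsEmbedding F := ⟨hind, hFi⟩
  refine ⟨τ, topologicalAddGroup_induced F, hemb.t2Space, ?_, ?_⟩
  · intro U hU hUne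
    choose x hx using hUne
    have hO : ∀ n, ∃ Fn : Finset Y, ∀ y, (∀ a ∈ Fn, F y a = F (x n) a) → y ∈ U n := by
      intro n
      obtain ⟨O, hO, hOU⟩ := isOpen_induced_iff.1 (hU n)
      have hxO : F (x n) ∈ O := by
        have : x n ∈ F ⁻¹' O := by rw [hOU]; exact hx n
        exact this
      obtain ⟨Fn, u, hu, hsub⟩ := isOpen_pi_iff.1 hO (F (x n)) hxO
      refine ⟨Fn, fun y hy => ?_⟩
      rw [← hOU]
      apply hsub
      intro a ha
      rw [hy a ha]
      exact (hu a ha).2
    choose Fn hFn using hO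
    let A : Set Y := ⋃ n, (↑(Fn n) : Set Y)
    have hA : A.Countable := Set.countable_iUnion fun n => (Fn n).countable_toSet
    choose r hrR hr0 using fun m => hR2 (x m)
    have hξ : ∀ i, ∃ ξ, ∀ m, ∀ a, (Sum.inl ⟨i, a⟩ : Y) ∈ A →
        (P i).j ((P i).S ξ (some m)) a = (P i).j (x m - r m) a := by
      intro i
      obtain ⟨ξ, hξ⟩ := (P i).hit {a | (Sum.inl ⟨i, a⟩ : Y) ∈ A}
        (hA.preimage (f := fun a => (Sum.inl ⟨i, a⟩ : Y)) (by
          intro a b hab
          have h1 := Sum.inl.inj hab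
          exact eq_of_heq (Sigma.mk.inj h1).2)) (fun m => x m - r m)
      exact ⟨ξ, fun m a ha => hξ m a ha⟩
    choose ξ hξ using hξ
    -- the `q`-limit of `r`
    obtain ⟨r0, hr0q⟩ : ∃ r0, ∀ᶠ m in (q : Filter ℕ), r m = r0 := by
      have h1 : (⋃ a ∈ R, {m | r m = a}) ∈ q := by
        have : (⋃ a ∈ R, {m | r m = a}) = Set.univ := by
          ext m
          simp [hrR m]
        rw [this]; exact Filter.univ_mem
      obtain ⟨a, -, ha⟩ := (Ultrafilter.finite_biUnion_mem_iff hR).1 h1
      exact ⟨a, ha⟩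
    let v : ℕ → G := fun m => r m + ∑ i, (P i).S (ξ i) (some m)
    let vl : G := r0 + ∑ i, (P i).S (ξ i) none
    have hvi : ∀ m i a, F (v m) (Sum.inl ⟨i, a⟩) =
        (P i).j (r m) a + (P i).j ((P i).S (ξ i) (some m)) a := by
      intro m i a
      rw [hF1]
      simp only [v, map_add, map_sum, Pi.add_apply, Finset.sum_apply]
      congr 1
      rw [Finset.sum_eq_single i]
      · intro i' _ hne
        rw [hcross i' i hne]; rfl
      · intro h; exact absurd (Finset.mem_univ i) h
    have hvli : ∀ i a, F vl (Sum.inl ⟨i, a⟩) =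
        (P i).j r0 a + (P i).j ((P i).S (ξ i) none) a := by
      intro i a
      rw [hF1]
      simp only [vl, map_add, map_sum, Pi.add_apply, Finset.sum_apply]
      congr 1
      rw [Finset.sum_eq_single i]
      · intro i' _ hne
        rw [hcross i' i hne]; rfl
      · intro h; exact absurd (Finset.mem_univ i) h
    have hv0 : ∀ m a, F (v m) (Sum.inr a) = j0 (r m) a := by
      intro m a
      rw [hF2]
      simp only [v, map_add, map_sum, Pi.add_apply, Finset.sum_apply]
      rw [Finset.sum_eq_zero]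
      · simp
      · intro i _
        rw [h0]; rfl
    have hvl0 : ∀ a, F vl (Sum.inr a) = j0 r0 a := by
      intro a
      rw [hF2]
      simp only [vl, map_add, map_sum, Pi.add_apply, Finset.sum_apply]
      rw [Finset.sum_eq_zero]
      · simp
      · intro i _
        rw [h0]; rfl
    refine ⟨v, vl, ?_, ?_⟩
    · intro n
      apply hFn
      intro y hy
      have hyA : y ∈ A := Set.mem_iUnion.2 ⟨n, hy⟩
      rcases y with ⟨i, a⟩ | a
      · rw [hvi, hξ i n a hyA, hF1]
        simp
      · rw [hv0, hF2]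
        exact congrFun (hr0 n) a
    · rw [hind.nhds_eq_comap, tendsto_comap_iff, tendsto_pi_nhds]
      intro y
      rcases y with ⟨i, a⟩ | a
      · have h1 : (fun m => (F ∘ v) m (Sum.inl ⟨i, a⟩)) = fun m =>
            (P i).j (r m) a + (P i).j ((P i).S (ξ i) (some m)) a := funext fun m => hvi m i a
        rw [h1, hvli]
        refine Tendsto.add ?_ ((P i).lim (ξ i) a)
        refine Tendsto.congr' (f₁ := fun _ => (P i).j r0 a) ?_ tendsto_const_nhds
        filter_upwards [hr0q] with m hm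
        rw [hm]
      · have h1 : (fun m => (F ∘ v) m (Sum.inr a)) = fun m => j0 (r m) a :=
          funext fun m => hv0 m a
        rw [h1, hvl0]
        refine Tendsto.congr' (f₁ := fun _ => j0 r0 a) ?_ tendsto_const_nhds
        filter_upwards [hr0q] with m hm
        rw [hm]
  · intro y x hy ht
    rw [hind.nhds_eq_comap, tendsto_comap_iff, tendsto_pi_nhds] at ht
    have h1 : ∀ a, Tendsto (fun n => F (y n - x) a) atTop (𝓝 0) := by
      intro a
      have h2 := (ht a).sub (tendsto_const_nhds (x := F x a))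
      rw [sub_self] at h2
      refine h2.congr fun n => ?_
      rw [map_sub]; rfl
    have h2 : ∀ i, ∀ᶠ n in atTop, (P i).j (y n - x) = 0 :=
      fun i => (P i).nc _ fun a => h1 (Sum.inl ⟨i, a⟩)
    have h3 : ∀ᶠ n in atTop, j0 (y n - x) = 0 := hnc0 _ fun a => h1 (Sum.inr a)
    have h4 : ∀ᶠ n in atTop, y n - x = 0 := by
      filter_upwards [eventually_all.2 h2, h3] with n hn1 hn2
      exact hinj _ hn1 hn2
    obtain ⟨N, hN⟩ := eventually_atTop.1 h4
    have h5 := hN N le_rfl
    have h6 := hN (N + 1) (Nat.le_succ N)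
    have h7 : y N = y (N + 1) := by
      rw [sub_eq_zero.1 h5, sub_eq_zero.1 h6]
    have := hy h7
    omega

end Pool.Agent.H376R3.PD
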