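import Pool.Agent.H376R3.PC.Ext

/-!
# Strongly q-pseudocompact group topologies without convergent sequences: definitions and tasks

Plan (helper376) for the full answer (yes, in ZFC, for every free ultrafilter `q`) to MP_dbf3d5_gt.
-/

set_option autoImplicit false

universe u

namespace Pool.Agent.H376R3.PD

open Cardinal Topology Filter Pool.Agent.H376R3.PC

/-- The pattern `π` respects the `q`-limits along the blocks `s ξ`. -/
def Constr {B Ξ V : Type*} [AddCommGroup V] (q : Ultrafilter ℕ) (s : Ξ → Option ℕ → B)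
    (π : B → (V →+ T)) : Prop :=
  ∀ ξ v, Tendsto (fun m => π (s ξ (some m)) v) q (𝓝 (π (s ξ none) v))

/-- a countable divisible group with elements of all orders -/
abbrev V0 : Type := ℚ × AddCircle (1 : ℚ)

/-- TASK PD1: the Bohr topology of an abelian group has no nontrivial convergent sequences. -/
def TaskPD1 : Prop :=
  ∀ (A : Type u) [AddCommGroup A] (z : ℕ → A),
    (∀ χ : A →+ T, Tendsto (fun n => χ (z n)) atTop (𝓝 0)) → ∀ᶠ n in atTop, z n = 0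

/-- TASK PD2 (`TaskPD1` may be used as a hypothesis). -/
def TaskPD2 : Prop :=
  ∀ (B X Ξ : Type u) (V : Type) [AddCommGroup V] (q : Ultrafilter ℕ) (s : Ξ → Option ℕ → B)
    (ψ : B → X → (V →+ T)),
    (∀ t : Set ℕ, t.Finite → t ∉ q) →
    (∀ ξ ξ' o o', s ξ o = s ξ' o' → ξ = ξ' ∧ o = o') →
    (∀ C : Set B, C.Countable → ∀ π : B → (V →+ T), Constr q s π → ∃ a, ∀ w ∈ C, ψ w a = π w) →
    ∀ h : ℕ → (B →₀ V), (∀ a, Tendsto (fun n => (h n).sum fun w v => ψ w a v) atTop (𝓝 0)) →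
      ∀ᶠ n in atTop, h n = 0

/-- TASK PD3. -/
def TaskPD3 : Prop :=
  ∀ (J : Type u) (κ : Cardinal.{u}), InjFam J κ → 𝔠 ≤ κ → InjFam (ℕ → J) κ

/-- TASK PD4. -/
def TaskPD4 : Prop :=
  ∀ (B J : Type u) (E : Type) [Nonempty E], #E ≤ 𝔠 → ℵ₀ ≤ #J → #B ≤ 2 ^ #J →
    ∃ (L : Type u) (f : L → B → E), #L ≤ #(ℕ → J) ∧
      ∀ C : Set B, C.Countable → ∀ g : B → E, ∃ l, ∀ b ∈ C, f l b = g b

/-- TASK PD5: extension of homomorphisms to sums of cyclic groups of order `n`. -/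
def TaskPD5 : Prop :=
  ∀ (G P B : Type u) [AddCommGroup G] [AddCommGroup P] (n : ℕ), 0 < n →
    ∀ (Φ : P →+ G) (Ψ : P →+ (B →₀ ZMod n)), (∀ x g, Φ x = n • g → Ψ x = 0) →
      ∃ ρ : G →+ (B →₀ ZMod n), ∀ x, ρ (Φ x) = Ψ x

/-- TASK PD6: extension of homomorphisms to sums of copies of `V0`. -/
def TaskPD6 : Prop :=
  (∀ (G P B : Type u) [AddCommGroup G] [AddCommGroup P] (Φ : P →+ G) (Ψ : P →+ (B →₀ V0)),
    (∀ x, Φ x = 0 → Ψ x = 0) → ∃ ρ : G →+ (B →₀ V0), ∀ x, ρ (Φ x) = Ψ x) ∧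
  ∀ n : ℕ, ∃ v : V0, n • v = 0 ∧ ∀ m : ℤ, m • v = 0 → (n : ℤ) ∣ m

end Pool.Agent.H376R3.PD
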