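import Pool.Agent.H376R3.PD.Rec2
import Pool.Agent.H376R3.PC.Zorn

/-!
# Groups with many independent elements (with `q`-limits)
-/

set_option autoImplicit false

universe u

namespace Pool.Agent.H376R3.PD

open Cardinal Topology Filter Pool.Agent.H376R3.PC

theorem exists_hom_val (v : V0) (hv : ∀ m : ℤ, m • v = 0 → ((0 : ℕ) : ℤ) ∣ m) (t : T) :
    ∃ χ : V0 →+ T, χ v = t := by
  obtain ⟨j, hj⟩ := exists_ext (X := Unit) (zmultiplesHom V0 v)
    (zmultiplesHom (Unit → T) (fun _ => t)) (by
      intro m hm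
      have h1 : m • v = 0 := hm
      have h2 := hv m h1
      have h3 : m = 0 := by simpa using h2
      rw [h3, map_zero])
  refine ⟨(Pi.evalAddMonoidHom (fun _ : Unit => T) ()).comp j, ?_⟩
  have h1 := hj 1
  have h2 : j v = fun _ => t := by simpa using h1
  simp [h2]

theorem type0_lemma2 (h2 : TaskPD2.{u}) (h3 : TaskPD3.{u}) (h4 : TaskPD4.{u}) (h6 : TaskPD6.{u})
    (q : Ultrafilter ℕ) (hq : ∀ t : Set ℕ, t.Finite → t ∉ q) {E M J : Type u} [AddCommGroup E]
    (e : M → E) (he : LinearIndependent ℤ e) (hJ : ℵ₁ ≤ #J) (hfam : InjFam J #M) (hc : 𝔠 ≤ #M)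
    (hE : #E ≤ 2 ^ #J) :
    ∃ (B X Ξ : Type u) (ρ : E →+ (B →₀ V0)) (ψ : B → X → (V0 →+ T)) (s : Ξ → Option ℕ → M),
      Function.Injective ρ ∧
      (∀ a ξ, Tendsto (fun m => chi ψ (ρ (e (s ξ (some m)))) a) q
        (𝓝 (chi ψ (ρ (e (s ξ none))) a))) ∧
      (∀ A : Set X, A.Countable → ∀ v : ℕ → X → T, ∃ ξ, ∀ m, ∀ a ∈ A,
        chi ψ (ρ (e (s ξ (some m)))) a = v m a) ∧
      (∀ h : ℕ → (B →₀ V0), (∀ a, Tendsto (fun n => chi ψ (h n) a) atTop (𝓝 0)) →
        ∀ᶠ n in atTop, h n = 0) := by
  classical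
  have he' := he.linearIndepOn_id
  rw [linearIndepOn_iff] at he'
  obtain ⟨S, hS0, hS1, hS2⟩ := pc6 E (Set.range e) (by
    intro c hc1 hc2 x
    have := he' c ((Finsupp.mem_supported ℤ c).2 hc1) (by
      rw [Finsupp.linearCombination_apply]; exact hc2)
    rw [this]; simp)
  let e0 : M → S := fun m => ⟨e m, hS0 ⟨m, rfl⟩⟩
  have he0 : Function.Injective e0 := by
    intro m m' h
    have : e m = e m' := congrArg Subtype.val h
    exact he.injective this
  have hr : ∀ m, addOrderOf ((e0 m : S) : E) = 0 := by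
    intro m
    have h1 : (addOrderOf (e m) : ℤ) • e m = 0 := by
      rw [natCast_zsmul]; exact addOrderOf_nsmul_eq_zero _
    have h2 := linearIndependent_iff.1 he (Finsupp.single m (addOrderOf (e m) : ℤ)) (by
      rw [Finsupp.linearCombination_single]; exact h1)
    have h3 := DFunLike.congr_fun h2 m
    simpa using h3
  have : Countable V0 := by
    have : Countable (AddCircle (1 : ℚ)) :=
      (QuotientAddGroup.mk_surjective (s := AddSubgroup.zmultiples (1 : ℚ))).countable
    infer_instance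
  obtain ⟨X, ψ, Ξ, s, hs, hψ1, hψ2, hψ3⟩ := type_lemma2 h3 h4 (B := S) (M := M) (J := J) V0 q e0
    he0 hJ hfam hc ((Cardinal.mk_le_of_injective Subtype.val_injective).trans hE)
  have hS1' : ∀ c : S →₀ ℤ, Finsupp.linearCombination ℤ (fun w : S => (w : E)) c = 0 →
      ∀ w, c w • (w : E) = 0 := by
    intro c hc w
    have h1 := hS1 (Finsupp.embDomain (Function.Embedding.subtype (· ∈ S)) c) (by
      rw [Finsupp.support_embDomain]
      intro x hx
      simp only [Finset.coe_map, Set.mem_image] at hx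
      obtain ⟨y, -, rfl⟩ := hx
      exact y.2) (by
      rw [Finsupp.sum_embDomain]
      rw [Finsupp.linearCombination_apply] at hc
      exact hc) (w : E)
    have h2 : (Finsupp.embDomain (Function.Embedding.subtype (· ∈ S)) c) (w : E) = c w :=
      Finsupp.embDomain_apply_self (Function.Embedding.subtype (· ∈ S)) c w
    rwa [h2] at h1
  choose vv hvv1 hvv2 using h6.2
  let r : S → (S →₀ V0) := fun w => Finsupp.single w (vv (addOrderOf (w : E)))
  have hker : ∀ c : S →₀ ℤ, Finsupp.linearCombination ℤ (fun w : S => (w : E)) c = 0 →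
      Finsupp.linearCombination ℤ r c = 0 := by
    intro c hc
    rw [Finsupp.linearCombination_apply]
    apply Finset.sum_eq_zero
    intro w _
    have h1 := addOrderOf_dvd_iff_zsmul_eq_zero.2 (hS1' c hc w)
    obtain ⟨k, hk⟩ := h1
    show c w • r w = 0
    have h5 : (k * (addOrderOf (w : E) : ℤ)) • vv (addOrderOf (w : E)) = 0 := by
      rw [mul_smul, natCast_zsmul, hvv1, smul_zero]
    rw [hk, mul_comm]
    simp only [r, Finsupp.smul_single]
    rw [h5, Finsupp.single_zero]
  obtain ⟨ρ, hρ⟩ := h6.1 E (S →₀ ℤ) S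
    (Finsupp.linearCombination ℤ (fun w : S => (w : E))).toAddMonoidHom
    (Finsupp.linearCombination ℤ r).toAddMonoidHom hker
  have hρ1 : ∀ w : S, ρ (w : E) = r w := by
    intro w
    have := hρ (Finsupp.single w 1)
    simpa using this
  have hval : ∀ m a, chi ψ (ρ (e m)) a = ψ (e0 m) a (vv 0) := by
    intro m a
    have h1 : ρ (e m) = Finsupp.single (e0 m) (vv 0) := by
      have := hρ1 (e0 m)
      simp only [r, hr m] at this
      exact this
    rw [h1, chi_single]
  refine ⟨S, X, Ξ, ρ, ψ, s, ?_, ?_, ?_, ?_⟩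
  · rw [injective_iff_map_eq_zero]
    intro x hx
    by_contra hx0
    obtain ⟨n, c, hn, hcS, hnc⟩ := hS2 x hx0
    apply hn
    -- restrict the combination to `S`
    let c' : S →₀ ℤ := c.subtypeDomain (· ∈ S)
    have h1 : Finsupp.linearCombination ℤ (fun w : S => (w : E)) c' = n • x := by
      rw [hnc, Finsupp.linearCombination_apply]
      exact Finsupp.sum_subtypeDomain_index (p := (· ∈ S)) (v := c) (h := fun x n => n • x)
        (fun x hx => hcS hx)
    have h2 : Finsupp.linearCombination ℤ r c' = 0 := by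
      have := hρ c'
      have h3 : ρ (n • x) = 0 := by rw [map_zsmul, hx, smul_zero]
      rw [← h1] at h3
      exact this.symm.trans h3
    rw [← h1, Finsupp.linearCombination_apply]
    apply Finset.sum_eq_zero
    intro w _
    have h4 : c' w • vv (addOrderOf (w : E)) = 0 := by
      have h5 : (Finsupp.linearCombination ℤ r c') w = c' w • vv (addOrderOf (w : E)) := by
        rw [Finsupp.linearCombination_apply, Finsupp.sum, Finsupp.finsetSum_apply,
          Finset.sum_eq_single w]
        · simp only [r, Finsupp.smul_single, Finsupp.single_eq_same]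
        · intro w' _ hne
          simp only [r, Finsupp.smul_single]
          exact Finsupp.single_eq_of_ne hne.symm
        · intro hn
          rw [Finsupp.notMem_support_iff.1 hn, zero_smul]; rfl
      rw [← h5, h2]; rfl
    exact addOrderOf_dvd_iff_zsmul_eq_zero.1 (hvv2 _ _ h4)
  · intro a ξ
    simp only [hval]
    exact hψ1 a ξ (vv 0)
  · intro A hA v
    choose π hπ using fun (m : ℕ) (a : X) => exists_hom_val (vv 0) (hvv2 0) (v m a)
    obtain ⟨ξ, hξ⟩ := hψ2 A hA π
    refine ⟨ξ, fun m a ha => ?_⟩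
    rw [hval, hξ m a ha, hπ]
  · intro h hh
    exact h2 S X Ξ V0 q (fun ξ o => e0 (s ξ o)) ψ hq
      (fun ξ ξ' o o' h => hs ξ ξ' o o' (he0 h)) hψ3 h hh

end Pool.Agent.H376R3.PD
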