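import Pool.Agent.H376R3.PD.Prime2
import Pool.Agent.H376R3.PD.Type02
import Pool.Agent.H376R3.PC.Final

/-!
# The final topology (with `q`-limits)
-/

set_option autoImplicit false

universe u

namespace Pool.Agent.H376R3.PD

open Cardinal Topology Filter Pool.Agent.H376R3.PC

theorem concl2_unbounded (h2' : TaskPD2.{u}) (h3' : TaskPD3.{u}) (h4' : TaskPD4.{u})
    (h5' : TaskPD5.{u}) (h6' : TaskPD6.{u}) (q : Ultrafilter ℕ)
    (hq : ∀ t : Set ℕ, t.Finite → t ∉ q) {G : Type u} [AddCommGroup G] (hA : HypA G)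
    (M : Type u) (e : M → G)
    (n0 : ℕ) (J : Type u) (he : LinearIndependent ℤ e) (hn0 : 0 < n0) (hJ : ℵ₁ ≤ #J)
    (hM : 𝔠 ≤ #M) (hcard : #(Set.range fun x : G => n0 • x) ≤ 2 ^ #J) (hfam : InjFam J #M) :
    Concl2 q G := by
  classical
  obtain ⟨N, hN, hmin⟩ : ∃ N : ℕ, 0 < N ∧ ∀ n : ℕ, 0 < n →
      #(Set.range fun x : G => N • x) ≤ #(Set.range fun x : G => n • x) := by
    obtain ⟨c, ⟨N, hN, rfl⟩, hc⟩ := Cardinal.lt_wf.has_min
      {c | ∃ n : ℕ, 0 < n ∧ c = #(Set.range fun x : G => n • x)} ⟨_, 1, one_pos, rfl⟩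
    exact ⟨N, hN, fun n hn => not_lt.1 (hc _ ⟨n, hn, rfl⟩)⟩
  obtain ⟨D, E0, I, hI, P, hE1, hE2, hP1, hP2, hP3, hDE, hess, hDinj, -⟩ :=
    prime_part2 h2' h3' h4' h5' q hq hA N hN
  let e' : M → E0 := fun m => ⟨N • e m, hE1 _⟩
  have he' : LinearIndependent ℤ e' := by
    rw [linearIndependent_iff]
    intro l hl
    have h1 : Finsupp.linearCombination ℤ e ((N : ℤ) • l) = 0 := by
      rw [map_smul]
      have h2 := congrArg (fun z : E0 => (z : G)) hl
      simp only [Finsupp.linearCombination_apply, Finsupp.sum, AddSubgroup.val_finsetSum,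
        AddSubgroup.coe_zsmul, ZeroMemClass.coe_zero, e'] at h2
      rw [Finsupp.linearCombination_apply, Finsupp.sum, Finset.smul_sum, ← h2]
      apply Finset.sum_congr rfl
      intro m _
      rw [smul_comm, natCast_zsmul]
    have h2 := (linearIndependent_iff.1 he) _ h1
    have hN' : (N : ℤ) ≠ 0 := by exact_mod_cast hN.ne'
    ext m
    have h3 := DFunLike.congr_fun h2 m
    have h4 : (N : ℤ) * l m = 0 := by simpa using h3
    exact (mul_eq_zero.1 h4).resolve_left hN'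
  have hNe : #M ≤ #(Set.range fun x : G => N • x) :=
    Cardinal.mk_le_of_injective (f := fun m => ⟨N • e m, e m, rfl⟩) (by
      intro m m' hmm
      have h1 : e' m = e' m' := Subtype.ext (Subtype.mk.inj hmm)
      exact he'.injective h1)
  have hE3 : #E0 ≤ 2 ^ #J := by
    refine hE2.trans ?_
    rw [max_eq_right (Cardinal.aleph0_le_continuum.trans (hM.trans hNe))]
    exact (hmin n0 hn0).trans hcard
  obtain ⟨B, X, Ξ, ρ0, ψ, s, hρ0, hl, hh, hnc⟩ := type0_lemma2 h2' h3' h4' h6' q hq e' he' hJ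
    hfam hM hE3
  let Φ : D × E0 →+ G := D.subtype.coprod E0.subtype
  let Ψ : D × E0 →+ (B →₀ V0) := ρ0.comp (AddMonoidHom.snd _ _)
  obtain ⟨ρ, hρ⟩ := h6'.1 G (D × E0) B Φ Ψ (by
    rintro ⟨d, x⟩ h
    have h1 : (d : G) + (x : G) = 0 := h
    have h2 := hDE d d.2 x x.2 h1
    rw [h2, zero_add] at h1
    have h3 : x = 0 := Subtype.ext h1
    show ρ0 x = 0
    rw [h3, map_zero])
  have hρD : ∀ d ∈ D, ρ d = 0 := by
    intro d hd
    have := hρ (⟨d, hd⟩, 0)
    simpa [Φ, Ψ] using this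
  have hρE : ∀ x : E0, ρ (x : G) = ρ0 x := by
    intro x
    have := hρ (0, x)
    simpa [Φ, Ψ] using this
  have hz : ∀ y : B →₀ V0, chi ψ y = 0 → y = 0 := by
    intro y hy
    have h1 := hnc (fun _ => y) (by
      intro a
      rw [hy]
      exact tendsto_const_nhds)
    obtain ⟨_, hm⟩ := h1.exists
    exact hm
  let P0 : Piece2 q G :=
    ⟨X, (chi ψ).comp ρ, Ξ, fun ξ o => (e' (s ξ o) : G), by
      intro ξ a
      simp only [AddMonoidHom.comp_apply, hρE]
      exact hl a ξ, by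
      intro A hA x
      obtain ⟨ξ, hξ⟩ := hh A hA (fun m => chi ψ (ρ (x m)))
      refine ⟨ξ, fun m a ha => ?_⟩
      show chi ψ (ρ (e' (s ξ (some m)) : G)) a = chi ψ (ρ (x m)) a
      rw [hρE]
      exact hξ m a ha, by
      intro z hz
      have h1 := hnc (fun n => ρ (z n)) hz
      filter_upwards [h1] with n hn
      show chi ψ (ρ (z n)) = 0
      rw [hn, map_zero]⟩
  let P' : Option I → Piece2 q G := fun i => Option.elim i P0 P
  refine assembly2 P' ?_ PEmpty.{u+1} 0 {0} (Set.finite_singleton _) ?_ ?_ ?_ ?_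
  · intro i i' hne ξ t
    rcases i with _ | i <;> rcases i' with _ | i'
    · exact absurd rfl hne
    · exact hP2 i' _
    · show chi ψ (ρ ((P i).S ξ t)) = 0
      rw [hρD _ (hP3 i ξ t), map_zero]
    · exact hP1 i i' (fun h => hne (by rw [h])) ξ t
  · intro x
    exact ⟨0, rfl, Subsingleton.elim _ _⟩
  · intro i ξ t
    exact Subsingleton.elim _ _
  · intro z _
    exact Filter.Eventually.of_forall fun n => Subsingleton.elim _ _
  · intro x hx _
    by_contra hx0
    obtain ⟨n, d, y, hd, hy, hnx, hsum⟩ := hess x hx0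
    have h1 : ρ (n • x) = 0 := by
      have h2 : chi ψ (ρ x) = 0 := hx none
      rw [map_nsmul, hz _ h2, smul_zero]
    rw [hsum, map_add, hρD d hd, zero_add] at h1
    have h2 : ρ0 ⟨y, hy⟩ = 0 := by rw [← hρE]; exact h1
    have h3 : (⟨y, hy⟩ : E0) = 0 := (injective_iff_map_eq_zero ρ0).1 hρ0 _ h2
    have h4 : y = 0 := congrArg Subtype.val h3
    rw [h4, add_zero] at hsum
    apply hnx
    rw [hsum]
    apply hDinj d hd
    intro i
    rw [← hsum, map_nsmul]
    have h5 : (P i).j x = 0 := hx (some i)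
    rw [h5, smul_zero]

theorem concl2_bounded (h2' : TaskPD2.{u}) (h3' : TaskPD3.{u}) (h4' : TaskPD4.{u})
    (h5' : TaskPD5.{u}) (q : Ultrafilter ℕ)
    (hq : ∀ t : Set ℕ, t.Finite → t ∉ q) {G : Type u} [AddCommGroup G] (hA : HypA G)
    (N : ℕ) (hN : 0 < N)
    (hb : ∀ x : G, N • x = 0) : Concl2 q G := by
  classical
  obtain ⟨D, E0, I, hI, P, hE1, -, hP1, hP2, hP3, hDE, hess, hDinj, hfin⟩ :=
    prime_part2 h2' h3' h4' h5' q hq hA N hN
  have hE0fin : Finite E0 := hfin hb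
  have hχ : ∀ y : E0, ∃ χ : G →+ T, (∀ d ∈ D, χ d = 0) ∧ (χ (y : G) = 0 → y = 0) := by
    intro y
    obtain ⟨τ, hτ1, hτ2⟩ := exists_tau (addOrderOf (y : G))
    let Φ : D × ℤ →+ G := D.subtype.coprod (zmultiplesHom G (y : G))
    let Ψ : D × ℤ →+ (Unit → T) :=
      (zmultiplesHom (Unit → T) (fun _ => τ)).comp (AddMonoidHom.snd _ _)
    obtain ⟨j, hj⟩ := exists_ext Φ Ψ (by
      rintro ⟨d, n⟩ h
      have h1 : (d : G) + n • (y : G) = 0 := h
      have h2 := hDE d d.2 _ (E0.zsmul_mem y.2 n) h1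
      rw [h2, zero_add] at h1
      have h3 := addOrderOf_dvd_iff_zsmul_eq_zero.2 h1
      obtain ⟨m, hm⟩ := h3
      show n • (fun _ : Unit => τ) = 0
      funext _
      show n • τ = 0
      rw [hm, mul_comm, mul_smul, natCast_zsmul, hτ1, smul_zero])
    refine ⟨(Pi.evalAddMonoidHom (fun _ : Unit => T) ()).comp j, ?_, ?_⟩
    · intro d hd
      have h1 := hj (⟨d, hd⟩, 0)
      have h2 : j d = 0 := by simpa [Φ, Ψ] using h1
      simp [h2]
    · intro h0
      have h1 := hj (0, 1)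
      have h2 : j (y : G) = fun _ => τ := by simpa [Φ, Ψ] using h1
      have h3 : τ = 0 := by
        have : j (y : G) () = 0 := h0
        rw [h2] at this
        exact this
      have h4 := hτ2 1 (by rw [h3, smul_zero])
      have h5 : addOrderOf (y : G) = 1 := by
        have := Int.eq_one_of_dvd_one (by positivity) h4
        exact_mod_cast this
      exact Subtype.ext (AddMonoid.addOrderOf_eq_one_iff.1 h5)
  choose χ hχ1 hχ2 using hχ
  let jf : G →+ (E0 → T) :=
    { toFun := fun x y => χ y x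
      map_zero' := by funext y; simp
      map_add' := by intro a b; funext y; simp }
  have htor : {u : T | N • u = 0}.Finite := AddCircle.finite_torsion (1 : ℝ) hN
  have hrange : (Set.range jf).Finite := by
    have h1 : (Set.pi Set.univ fun _ : E0 => {u : T | N • u = 0}).Finite :=
      Set.Finite.pi fun _ => htor
    refine h1.subset ?_
    rintro _ ⟨x, rfl⟩ y _
    show N • χ y x = 0
    rw [← map_nsmul, hb, map_zero]
  let g : (E0 → T) → G := fun y => if h : ∃ x, jf x = y then h.choose else 0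
  have hg : ∀ x, jf (g (jf x)) = jf x := by
    intro x
    have h : ∃ x', jf x' = jf x := ⟨x, rfl⟩
    simp only [g, h, dif_pos]
    exact h.choose_spec
  refine assembly2 P hP1 E0 jf (g '' Set.range jf) (hrange.image g) ?_ ?_ ?_ ?_
  · intro x
    exact ⟨g (jf x), ⟨jf x, ⟨x, rfl⟩, rfl⟩, hg x⟩
  · intro i ξ t
    funext y
    exact hχ1 y _ (hP3 i ξ t)
  · intro z hz
    have h1 : ∀ y : E0, ∀ᶠ n in atTop, jf (z n) y = 0 := by
      intro y
      have hfin2 : ({u : T | N • u = 0} \ {0}).Finite := htor.subset Set.sdiff_subset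
      have hopen : IsOpen ({u : T | N • u = 0} \ {0})ᶜ := hfin2.isClosed.isOpen_compl
      have h2 := (hz y).eventually (hopen.mem_nhds (by simp))
      filter_upwards [h2] with n hn
      by_contra hne
      apply hn
      refine ⟨?_, hne⟩
      show N • χ y (z n) = 0
      rw [← map_nsmul, hb, map_zero]
    have : Finite E0 := hE0fin
    filter_upwards [eventually_all.2 h1] with n hn
    exact funext hn
  · intro x hx hx2
    by_contra hx0
    obtain ⟨n, d, y, hd, hy, hnx, hsum⟩ := hess x hx0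
    have h1 : χ ⟨y, hy⟩ (n • x) = 0 := by
      rw [map_nsmul]
      have h2 : χ ⟨y, hy⟩ x = 0 := congrFun hx2 ⟨y, hy⟩
      rw [h2, smul_zero]
    rw [hsum, map_add, hχ1 _ d hd, zero_add] at h1
    have h3 := hχ2 ⟨y, hy⟩ h1
    have h4 : y = 0 := congrArg Subtype.val h3
    rw [h4, add_zero] at hsum
    apply hnx
    rw [hsum]
    apply hDinj d hd
    intro i
    rw [← hsum, map_nsmul, hx i, smul_zero]

theorem main_theorem2 (h2' : TaskPD2.{u}) (h3' : TaskPD3.{u}) (h4' : TaskPD4.{u})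
    (h5' : TaskPD5.{u}) (h6' : TaskPD6.{u}) (q : Ultrafilter ℕ)
    (hq : ∀ t : Set ℕ, t.Finite → t ∉ q) (G : Type u) [AddCommGroup G] [TopologicalSpace G]
    [IsTopologicalAddGroup G] [T2Space G]
    (hp : ∀ f : G → ℝ, Continuous f → ∃ C : ℝ, ∀ x, |f x| ≤ C) : Concl2 q G := by
  obtain ⟨K, _, _, _, _, _, ι, hι, hd⟩ := Pool.Agent.H990R4.PC1.pc1 G hp
  have hA := hypA_of ι hι hd
  by_cases hb : ∃ N : ℕ, 0 < N ∧ ∀ x : G, N • x = 0
  · obtain ⟨N, hN, hb⟩ := hb
    exact concl2_bounded h2' h3' h4' h5' q hq hA N hN hb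
  · push Not at hb
    obtain ⟨M, e, n, J, he, hn, hJ, hM, hcard, hfam⟩ :=
      Pool.Agent.H526R3.PC5.pc5 Pool.Agent.H973R3.PC2.pc2 Pool.Agent.H345R3.PC3.pc3 G K ι hι hd hb
    exact concl2_unbounded h2' h3' h4' h5' h6' q hq hA M e n J he hn hJ hM hcard hfam

end Pool.Agent.H376R3.PD
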