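import Pool.Agent.H376R3.PD.Asm2
import Pool.Agent.H376R3.PC.Rec

/-!
# The piece of a prime power (with `q`-limits)
-/

set_option autoImplicit false

universe u

namespace Pool.Agent.H376R3.PD

open Cardinal Topology Filter Pool.Agent.H376R3.PC

/-- the homomorphism of the direct sum given by homomorphisms on the summands -/
noncomputable def chi {B X : Type u} {V : Type} [AddCommGroup V] (ψ : B → X → (V →+ T)) :
    (B →₀ V) →+ (X → T) :=
  { toFun := fun h a => h.sum fun w v => ψ w a v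
    map_zero' := by funext a; simp
    map_add' := by
      intro h h'
      funext a
      exact Finsupp.sum_add_index' (fun w => map_zero _) (fun w v v' => map_add _ v v') }

theorem chi_single {B X : Type u} {V : Type} [AddCommGroup V] (ψ : B → X → (V →+ T)) (w : B)
    (v : V) (a : X) : chi ψ (Finsupp.single w v) a = ψ w a v :=
  Finsupp.sum_single_index (map_zero _)

theorem chi_apply {B X : Type u} {V : Type} [AddCommGroup V] (ψ : B → X → (V →+ T))
    (h : B →₀ V) (a : X) : chi ψ h a = h.sum fun w v => ψ w a v := rfl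

theorem record_piece2 (h2 : TaskPD2.{u}) (h3 : TaskPD3.{u}) (h4 : TaskPD4.{u})
    (h5 : TaskPD5.{u}) (q : Ultrafilter ℕ) (hq : ∀ t : Set ℕ, t.Finite → t ∉ q)
    {G : Type u} [AddCommGroup G] (p k h : ℕ) (hp : p.Prime) (hk : k < h)
    (B : Type u) (κ : B → ℕ) (b : B → G)
    (hht : ∀ (c : B →₀ ℤ) (m : ℕ), m ≤ h → (∃ g : G, (c.sum fun w n => n • b w) = p ^ m • g) →
        ∀ w, ((p ^ min m (κ w + 1) : ℕ) : ℤ) ∣ c w)
    (hcard : ∀ k, #{w // κ w = k} ≤ #(V (G := G) p k))
    (hcard2 : ∀ k < h, ℵ₀ < #(V (G := G) p k) → #(V (G := G) p (k + 1)) < #(V (G := G) p k) →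
        #{w // κ w = k} = #(V (G := G) p k))
    (J : Type u) (hJ : ℵ₁ ≤ #J) (hJ2 : #(V (G := G) p k) ≤ 2 ^ #J)
    (hfam : InjFam J #(V (G := G) p k)) (hc : 𝔠 ≤ #(V (G := G) p k))
    (hrec : #(V (G := G) p (k + 1)) < #(V (G := G) p k)) :
    ∃ P : Piece2 q G, (∀ ξ o, ∃ w, κ w = k ∧ P.S ξ o = b w) ∧
      (∀ x, p ^ (k + 1) • P.j x = 0) ∧
      (∀ w, ¬ (κ w ≤ k ∧ #(V (G := G) p (κ w)) = #(V (G := G) p k)) → P.j (b w) = 0) ∧
      (∀ c : B →₀ ℤ, (c.sum fun w n => n • P.j (b w)) = 0 →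
        ∀ w, (κ w ≤ k ∧ #(V (G := G) p (κ w)) = #(V (G := G) p k)) →
          ((p ^ (κ w + 1) : ℕ) : ℤ) ∣ c w) := by
  classical
  let Q : B → Prop := fun w => κ w ≤ k ∧ #(V (G := G) p (κ w)) = #(V (G := G) p k)
  have hMcard : #{w // κ w = k} = #(V (G := G) p k) :=
    hcard2 k hk (Cardinal.aleph0_lt_continuum.trans_le hc) hrec
  have hM0 : ℵ₀ ≤ #(V (G := G) p k) := Cardinal.aleph0_le_continuum.trans hc
  let e0 : {w // κ w = k} → {w // Q w} := fun w => ⟨w.1, by rw [w.2], by rw [w.2]⟩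
  have he0 : Function.Injective e0 := by
    intro w w' hww
    have : (e0 w).1 = (e0 w').1 := by rw [hww]
    exact Subtype.ext this
  have hBcard : #{w // Q w} ≤ 2 ^ #J := by
    refine le_trans ?_ hJ2
    have h1 : #{w // Q w} = #(Σ i : ℕ, {w : {w // Q w} // κ w.1 = i}) :=
      Cardinal.mk_congr (Equiv.sigmaFiberEquiv fun w : {w // Q w} => κ w.1).symm
    rw [h1, Cardinal.mk_sigma]
    refine (Cardinal.sum_le_sum _ (fun _ => #(V (G := G) p k)) ?_).trans ?_
    · intro i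
      by_cases hi : Nonempty {w : {w // Q w} // κ w.1 = i}
      · obtain ⟨w, hw⟩ := hi
        have h2 : #{w : {w // Q w} // κ w.1 = i} ≤ #{w // κ w = i} := by
          refine Cardinal.mk_le_of_injective (f := fun w => ⟨w.1.1, w.2⟩) ?_
          intro a a' haa
          have : a.1.1 = a'.1.1 := by simpa using haa
          exact Subtype.ext (Subtype.ext this)
        refine h2.trans ((hcard i).trans ?_)
        rw [← hw, w.2.2]
      · rw [not_nonempty_iff] at hi
        simp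
    · rw [Cardinal.sum_const]
      simp only [Cardinal.mk_nat, Cardinal.lift_aleph0]
      exact (Cardinal.mul_le_max_of_aleph0_le_left le_rfl).trans
        (max_le hM0 (by rw [Cardinal.lift_uzero]))
  set n : ℕ := p ^ (k + 1) with hn
  have hn0 : 0 < n := pow_pos hp.pos _
  have : NeZero n := ⟨hn0.ne'⟩
  obtain ⟨X, ψ, Ξ, s, hs, hψ1, hψ2, hψ3⟩ := type_lemma2 h3 h4 (B := {w // Q w})
    (M := {w // κ w = k}) (J := J) (ZMod n) q e0 he0 hJ (by rw [hMcard]; exact hfam)
    (by rw [hMcard]; exact hc) hBcard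
  let ρ0 : B → ({w // Q w} →₀ ZMod n) := fun w =>
    if hw : Q w then Finsupp.single ⟨w, hw⟩ ((p ^ (k - κ w) : ℕ) : ZMod n) else 0
  have hρ01 : ∀ w (hw : Q w), ρ0 w = Finsupp.single ⟨w, hw⟩ ((p ^ (k - κ w) : ℕ) : ZMod n) :=
    fun w hw => by simp [ρ0, hw]
  have hρ02 : ∀ w, ¬ Q w → ρ0 w = 0 := fun w hw => by simp [ρ0, hw]
  have hdiv : ∀ (w : B) (m : ℤ), Q w → ((p ^ (κ w + 1) : ℕ) : ℤ) ∣ m → m • ρ0 w = 0 := by
    intro w m hw hm
    obtain ⟨m', rfl⟩ := hm
    rw [hρ01 w hw, Finsupp.smul_single]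
    have h1 : (((p ^ (κ w + 1) : ℕ) : ℤ) * m') • ((p ^ (k - κ w) : ℕ) : ZMod n) = 0 := by
      rw [zsmul_eq_mul]
      have h2 : p ^ (κ w + 1) * p ^ (k - κ w) = n := by
        rw [← pow_add, hn]
        congr 1
        have := hw.1
        omega
      have h3 : ((((p ^ (κ w + 1) : ℕ) : ℤ) * m' : ℤ) : ZMod n) * ((p ^ (k - κ w) : ℕ) : ZMod n)
          = ((p ^ (κ w + 1) * p ^ (k - κ w) : ℕ) : ZMod n) * (m' : ZMod n) := by
        push_cast
        ring
      rw [h3, h2, ZMod.natCast_self, zero_mul]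
    rw [h1, Finsupp.single_zero]
  obtain ⟨ρ, hρ⟩ := h5 G (B →₀ ℤ) {w // Q w} n hn0
    (Finsupp.linearCombination ℤ b).toAddMonoidHom
    (Finsupp.linearCombination ℤ ρ0).toAddMonoidHom (by
      intro c g hcg
      show Finsupp.linearCombination ℤ ρ0 c = 0
      rw [Finsupp.linearCombination_apply]
      apply Finset.sum_eq_zero
      intro w _
      show c w • ρ0 w = 0
      by_cases hw : Q w
      · apply hdiv w _ hw
        have h1 := hht c (k + 1) hk ⟨g, by
          rw [← Finsupp.linearCombination_apply]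
          exact hcg⟩ w
        have h2 : min (k + 1) (κ w + 1) = κ w + 1 := min_eq_right (by have := hw.1; omega)
        rwa [h2] at h1
      · rw [hρ02 w hw, smul_zero])
  have hρb : ∀ w, ρ (b w) = ρ0 w := by
    intro w
    have := hρ (Finsupp.single w 1)
    simpa using this
  have hρn : ∀ x, n • ρ x = 0 := by
    intro x
    ext w
    simp
  have hb1 : ∀ m : {w // κ w = k}, ρ (b (e0 m).1) = Finsupp.single (e0 m) (1 : ZMod n) := by
    intro m
    rw [hρb, hρ01 _ (e0 m).2]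
    have h1 : k - κ (e0 m).1 = 0 := by
      show k - κ m.1 = 0
      rw [m.2]; omega
    rw [h1]; simp
  have hj1 : ∀ m a, chi ψ (ρ (b (e0 m).1)) a = ψ (e0 m) a 1 := by
    intro m a
    rw [hb1, chi_single]
  refine ⟨⟨X, (chi ψ).comp ρ, Ξ, fun ξ o => b (e0 (s ξ o)).1, ?_, ?_, ?_⟩, ?_, ?_, ?_, ?_⟩
  · intro ξ a
    simp only [AddMonoidHom.comp_apply, hj1]
    exact hψ1 a ξ 1
  · intro A hA x
    have hx : ∀ m a, ((n : ℤ)) • (chi ψ (ρ (x m)) a) = 0 := by
      intro m a
      have h1 : n • chi ψ (ρ (x m)) = 0 := by rw [← map_nsmul, hρn, map_zero]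
      rw [natCast_zsmul]
      exact congrFun h1 a
    let π : ℕ → X → (ZMod n →+ T) := fun m a =>
      ZMod.lift n ⟨zmultiplesHom T (chi ψ (ρ (x m)) a), by simpa using hx m a⟩
    have hπ : ∀ m a, π m a 1 = chi ψ (ρ (x m)) a := by
      intro m a
      have h1 := ZMod.lift_coe n
        (⟨zmultiplesHom T (chi ψ (ρ (x m)) a), by simpa using hx m a⟩ :
          { f : ℤ →+ T // f n = 0 }) 1
      simpa using h1
    obtain ⟨ξ, hξ⟩ := hψ2 A hA π
    refine ⟨ξ, fun m a ha => ?_⟩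
    show chi ψ (ρ (b (e0 (s ξ (some m))).1)) a = chi ψ (ρ (x m)) a
    rw [hj1, hξ m a ha, hπ]
  · intro z hz
    have h1 := h2 {w // Q w} X Ξ (ZMod n) q (fun ξ o => e0 (s ξ o)) ψ hq
      (fun ξ ξ' o o' h => hs ξ ξ' o o' (he0 h)) hψ3 (fun m => ρ (z m)) hz
    filter_upwards [h1] with m hm
    show chi ψ (ρ (z m)) = 0
    rw [hm, map_zero]
  · intro ξ o
    exact ⟨(e0 (s ξ o)).1, (s ξ o).2, rfl⟩
  · intro x
    show n • chi ψ (ρ x) = 0
    rw [← map_nsmul, hρn, map_zero]
  · intro w hw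
    show chi ψ (ρ (b w)) = 0
    rw [hρb, hρ02 w hw, map_zero]
  · intro c hc0 w hw
    have h0 : chi ψ (ρ (Finsupp.linearCombination ℤ b c)) = 0 := by
      have h1 : (c.sum fun w n => n • chi ψ (ρ (b w))) = 0 := hc0
      rw [Finsupp.linearCombination_apply, map_finsuppSum, map_finsuppSum]
      simpa only [map_zsmul] using h1
    have h1 := h2 {w // Q w} X Ξ (ZMod n) q (fun ξ o => e0 (s ξ o)) ψ hq
      (fun ξ ξ' o o' h => hs ξ ξ' o o' (he0 h)) hψ3
      (fun _ => ρ (Finsupp.linearCombination ℤ b c)) (by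
        intro a
        have h3 : (fun _ : ℕ => (ρ (Finsupp.linearCombination ℤ b c)).sum fun w v => ψ w a v) =
            fun _ => 0 := by
          funext _
          exact congrFun h0 a
        rw [h3]; exact tendsto_const_nhds)
    obtain ⟨_, hm⟩ := h1.exists
    have h4 : Finsupp.linearCombination ℤ ρ0 c = 0 := (hρ c).symm.trans hm
    have h5 : (Finsupp.linearCombination ℤ ρ0 c) ⟨w, hw⟩ =
        c w • ((p ^ (k - κ w) : ℕ) : ZMod n) := by
      rw [Finsupp.linearCombination_apply, Finsupp.sum, Finsupp.finsetSum_apply,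
        Finset.sum_eq_single w]
      · rw [hρ01 w hw, Finsupp.smul_single, Finsupp.single_eq_same]
      · intro w' _ hne
        by_cases hw' : Q w'
        · rw [hρ01 w' hw', Finsupp.smul_single, Finsupp.single_eq_of_ne]
          intro h
          exact hne (congrArg Subtype.val h).symm
        · rw [hρ02 w' hw', smul_zero]; rfl
      · intro hn
        rw [Finsupp.notMem_support_iff.1 hn, zero_smul]; rfl
    rw [h4] at h5
    have h6 : ((c w * (p ^ (k - κ w) : ℕ) : ℤ) : ZMod n) = 0 := by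
      rw [zsmul_eq_mul] at h5
      push_cast
      push_cast at h5
      exact h5.symm
    rw [ZMod.intCast_zmod_eq_zero_iff_dvd] at h6
    have h7 : (n : ℤ) = ((p ^ (κ w + 1) : ℕ) : ℤ) * ((p ^ (k - κ w) : ℕ) : ℤ) := by
      rw [← Nat.cast_mul, ← pow_add, hn]
      congr 2
      have := hw.1
      omega
    rw [h7] at h6
    have h8 : ((p ^ (k - κ w) : ℕ) : ℤ) ≠ 0 := by
      exact_mod_cast (pow_pos hp.pos _).ne'
    exact Int.dvd_of_mul_dvd_mul_right h8 h6

end Pool.Agent.H376R3.PD
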