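import Pool.Agent.H376R3.PC.Vec
import Pool.Agent.H376R3.PD.Defs

/-!
# The basic construction with `q`-limits and arbitrary patterns on countable sets
-/

set_option autoImplicit false

universe u

namespace Pool.Agent.H376R3.PD

open Cardinal Topology Filter Pool.Agent.H376R3.PC

theorem exists_qlim {V : Type*} [AddCommGroup V] (q : Ultrafilter ℕ) (E : ℕ → (V →+ T)) :
    ∃ χ : V →+ T, ∀ v, Tendsto (fun m => E m v) q (𝓝 (χ v)) := by
  have h1 : ∀ v, ∃ y : T, Tendsto (fun m => E m v) q (𝓝 y) := by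
    intro v
    obtain ⟨y, -, hy⟩ := (isCompact_univ (X := T)).ultrafilter_le_nhds (q.map fun m => E m v)
      (by simp)
    exact ⟨y, hy⟩
  choose y hy using h1
  refine ⟨{ toFun := y, map_zero' := ?_, map_add' := ?_ }, hy⟩
  · refine tendsto_nhds_unique (hy 0) ?_
    simp only [map_zero]
    exact tendsto_const_nhds
  · intro v w
    refine tendsto_nhds_unique (hy (v + w)) ?_
    simp only [map_add]
    exact (hy v).add (hy w)

theorem mk_hom_le (V : Type) [AddCommGroup V] [Countable V] : #(V →+ T) ≤ 𝔠 := by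
  have h0 : #T ≤ 𝔠 := by
    have := Cardinal.mk_le_of_surjective (f := fun x : ℝ => (x : T))
      QuotientAddGroup.mk_surjective
    rwa [Cardinal.mk_real] at this
  have h1 : #(V →+ T) ≤ #(V → T) :=
    Cardinal.mk_le_of_injective (f := fun φ : V →+ T => (φ : V → T)) DFunLike.coe_injective
  refine h1.trans ?_
  rw [← Cardinal.power_def]
  calc #T ^ #V ≤ 𝔠 ^ #V := Cardinal.power_le_power_right h0
    _ ≤ 𝔠 ^ ℵ₀ := Cardinal.power_le_power_left (Cardinal.continuum_ne_zero) (Cardinal.mk_le_aleph0)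
    _ = 𝔠 := Cardinal.continuum_power_aleph0

theorem type_lemma2 (h3 : TaskPD3.{u}) (h4 : TaskPD4.{u}) {B M J : Type u} (V : Type)
    [AddCommGroup V] [Countable V] (q : Ultrafilter ℕ) (e0 : M → B)
    (he0 : Function.Injective e0) (hJ : ℵ₁ ≤ #J) (hfam : InjFam J #M) (hc : 𝔠 ≤ #M)
    (hB : #B ≤ 2 ^ #J) :
    ∃ (X : Type u) (ψ : B → X → (V →+ T)) (Ξ : Type u) (s : Ξ → Option ℕ → M),
      (∀ ξ ξ' o o', s ξ o = s ξ' o' → ξ = ξ' ∧ o = o') ∧
      (∀ a, Constr q (fun ξ o => e0 (s ξ o)) (fun w => ψ w a)) ∧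
      (∀ A : Set X, A.Countable → ∀ π : ℕ → X → (V →+ T),
        ∃ ξ, ∀ m, ∀ a ∈ A, ψ (e0 (s ξ (some m))) a = π m a) ∧
      (∀ C : Set B, C.Countable → ∀ π : B → (V →+ T), Constr q (fun ξ o => e0 (s ξ o)) π →
        ∃ a, ∀ w ∈ C, ψ w a = π w) := by
  classical
  obtain ⟨Δ, d, hΔ, hd⟩ := h3 J #M hfam hc
  obtain ⟨W, _, hW, hWb⟩ := exists_omega1.{u}
  have hJ0 : ℵ₀ ≤ #J := (Cardinal.aleph0_le_aleph 1).trans hJ
  have hM0 : ℵ₀ ≤ #M := Cardinal.aleph0_le_continuum.trans hc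
  have hV := mk_hom_le V
  have hE1 : #(ℕ → (V →+ T)) ≤ 𝔠 := by
    rw [← Cardinal.power_def]
    exact (Cardinal.power_le_power_right hV).trans (by
      rw [Cardinal.mk_nat]; exact Cardinal.continuum_power_aleph0.le)
  have hE2 : #(ℕ → ℕ → (V →+ T)) ≤ 𝔠 := by
    rw [← Cardinal.power_def]
    exact (Cardinal.power_le_power_right hE1).trans (by
      rw [Cardinal.mk_nat]; exact Cardinal.continuum_power_aleph0.le)
  let Ξ : Type u := (Δ × (ℕ → ℕ → (V →+ T))) × W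
  have hlc : Cardinal.lift.{u} #(ℕ → ℕ → (V →+ T)) ≤ 𝔠 := by
    have := Cardinal.lift_le.{u}.2 hE2
    simpa using this
  have hΞ2 : #Ξ ≤ #M := by
    rw [Cardinal.mk_prod, Cardinal.mk_prod]
    simp only [Cardinal.lift_id, Cardinal.lift_uzero]
    rw [hW]
    calc #Δ * Cardinal.lift.{u} #(ℕ → ℕ → (V →+ T)) * ℵ₁ ≤ #M * #M * #M := by
          gcongr
          · exact hlc.trans hc
          · exact Cardinal.aleph_one_le_continuum.trans hc
      _ = #M := by rw [Cardinal.mul_eq_self hM0, Cardinal.mul_eq_self hM0]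
  have hΞ : #(Ξ × Option ℕ) ≤ #M := by
    rw [Cardinal.mk_prod]
    simp only [Cardinal.lift_uzero]
    have h1 : Cardinal.lift.{u} #(Option ℕ) = ℵ₀ := by simp
    rw [h1]
    calc #Ξ * ℵ₀ ≤ #M * #M := by gcongr
      _ = #M := Cardinal.mul_eq_self hM0
  obtain ⟨g⟩ : Nonempty (Ξ × Option ℕ ↪ M) := by
    have := hΞ
    rwa [Cardinal.le_def] at this
  have hMB : #M ≤ #B := Cardinal.mk_le_of_injective he0
  have hB0 : ℵ₀ ≤ #B := hM0.trans hMB
  have hB' : #(Ξ ⊕ B) ≤ 2 ^ #J := by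
    rw [Cardinal.mk_sum]
    simp only [Cardinal.lift_id]
    calc #Ξ + #B ≤ #B + #B := by gcongr; exact hΞ2.trans hMB
      _ = #B := Cardinal.add_eq_self hB0
      _ ≤ _ := hB
  obtain ⟨L, f, hL, hf⟩ := h4 (Ξ ⊕ B) J (ℕ → (V →+ T)) hE1 hJ0 hB'
  have hJL : #J ≤ #(ℕ → J) := Cardinal.mk_le_of_injective (f := fun (j : J) (_ : ℕ) => j)
    (fun a b h => congrFun h 0)
  have hX : #(W × L) ≤ #(ℕ → J) := by
    rw [Cardinal.mk_prod, Cardinal.lift_id, Cardinal.lift_id, hW]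
    calc ℵ₁ * #L ≤ #(ℕ → J) * #(ℕ → J) := by
          gcongr
          exact hJ.trans hJL
      _ = #(ℕ → J) := Cardinal.mul_eq_self (hJ0.trans hJL)
  obtain ⟨e⟩ : Nonempty ((W × L) ↪ (ℕ → J)) := by rwa [Cardinal.le_def] at hX
  choose ql hql using exists_qlim (V := V) q
  let G : Ξ × Option ℕ → B := fun y => e0 (g y)
  have hG : Function.Injective G := he0.comp g.injective
  -- the values along a block
  let Ev : Ξ → W × L → ℕ → (V →+ T) := fun ξ x =>
    if x.1 < ξ.2 then ξ.1.2 (d ξ.1.1 (e x)) else f x.2 (Sum.inl ξ)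
  let val : Ξ × Option ℕ → W × L → (V →+ T) := fun y x =>
    Option.elim y.2 (ql (Ev y.1 x)) (Ev y.1 x)
  let ψ : B → (W × L) → (V →+ T) := Function.extend G val (fun w x => f x.2 (Sum.inr w) 0)
  have hψ1 : ∀ y, ψ (G y) = val y := fun y => hG.extend_apply _ _ y
  have hψ2 : ∀ w, (¬ ∃ y, G y = w) → ψ w = fun x => f x.2 (Sum.inr w) 0 :=
    fun w hw => Function.extend_apply' _ _ _ hw
  refine ⟨W × L, ψ, Ξ, fun ξ o => g (ξ, o), ?_, ?_, ?_, ?_⟩
  · intro ξ ξ' o o' h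
    have := g.injective h
    exact ⟨congrArg Prod.fst this, congrArg Prod.snd this⟩
  · intro a ξ v
    have h1 : ∀ m, ψ (e0 (g (ξ, some m))) a = Ev ξ a m := fun m => congrFun (hψ1 (ξ, some m)) a
    have h2 : ψ (e0 (g (ξ, none))) a = ql (Ev ξ a) := congrFun (hψ1 (ξ, none)) a
    show Tendsto (fun m => ψ (e0 (g (ξ, some m))) a v) q (𝓝 (ψ (e0 (g (ξ, none))) a v))
    simp only [h1, h2]
    exact hql _ v
  · intro A hA π
    obtain ⟨β, hβ⟩ := hWb (Prod.fst '' A) (hA.image _)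
    obtain ⟨δ, hδ⟩ := hd (e '' A) (hA.image _)
    let Y : ℕ → ℕ → (V →+ T) := fun k m =>
      if h : ∃ a ∈ A, d δ (e a) = k then π m h.choose else 0
    refine ⟨((δ, Y), β), fun m a ha => ?_⟩
    have h1 : ψ (e0 (g (((δ, Y), β), some m))) a = Ev ((δ, Y), β) a m :=
      congrFun (hψ1 (((δ, Y), β), some m)) a
    rw [h1]
    have h2 : a.1 < β := hβ _ ⟨a, ha, rfl⟩
    simp only [Ev, h2, if_true]
    have h3 : ∃ a' ∈ A, d δ (e a') = d δ (e a) := ⟨a, ha, rfl⟩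
    simp only [Y]
    rw [dif_pos h3]
    have h4 := h3.choose_spec
    have h5 : h3.choose = a := by
      have h6 := hδ (Set.mem_image_of_mem e h4.1) (Set.mem_image_of_mem e ha) h4.2
      exact e.injective h6
    rw [h5]
  · intro C hC π hπ
    let D : Set Ξ := Prod.fst '' (G ⁻¹' C)
    have hD : D.Countable := (hC.preimage hG).image _
    let tgt : Ξ ⊕ B → (ℕ → (V →+ T)) :=
      Sum.elim (fun ξ m => π (G (ξ, some m))) (fun w _ => π w)
    obtain ⟨l, hl⟩ := hf (Sum.inl '' D ∪ Sum.inr '' C)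
      ((hD.image _).union (hC.image _)) tgt
    obtain ⟨α, hα⟩ := hWb ((fun ξ : Ξ => ξ.2) '' D) (hD.image _)
    refine ⟨(α, l), fun w hw => ?_⟩
    by_cases h1 : ∃ y, G y = w
    · obtain ⟨⟨ξ, o⟩, rfl⟩ := h1
      rw [hψ1]
      have h2 : ξ ∈ D := ⟨(ξ, o), hw, rfl⟩
      have h3 : ¬ α < ξ.2 := not_lt.2 (hα _ ⟨ξ, h2, rfl⟩).le
      have h4 : Ev ξ (α, l) = fun m => π (G (ξ, some m)) := by
        simp only [Ev, h3, if_false]
        exact hl _ (Or.inl ⟨ξ, h2, rfl⟩)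
      rcases o with _ | m
      · show ql (Ev ξ (α, l)) = π (G (ξ, none))
        rw [h4]
        ext v
        exact tendsto_nhds_unique (hql _ v) (hπ ξ v)
      · show Ev ξ (α, l) m = _
        rw [h4]
    · rw [hψ2 w h1]
      show f l (Sum.inr w) 0 = π w
      rw [hl _ (Or.inr ⟨w, hw, rfl⟩)]
      rfl

end Pool.Agent.H376R3.PD
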